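import Pool.Agent.CFS.R.RDefs
import Pool.Agent.CFS.SplA

/-!
# Module CFSR-Cls: finitely many classes of planes and of places; pigeonhole at a broad point

Plan.
* `plane_classes`: the orthogonal projections `U.starProjection : V l →L[ℝ] V l` have norm `≤ 1`
  (`Submodule.starProjection_norm_le` or similar).  `cover_unit (V l →L[ℝ] V l) (δ/2)` gives `N`, `c`; let
  `cls U` = some `i < N` with `‖U.starProjection - c i‖ ≤ δ/2`.  If `cls U = cls U'` then
  `‖U.starProjection - U'.starProjection‖ ≤ δ`; for `x`, `t ∈ U`: let `t' = U'.starProjection x ∈ U'`: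
  `‖x - t'‖ ≤ ‖x - U.starProjection x‖ + ‖(U.starProjection - U'.starProjection) x‖ ≤ ‖x - t‖ + δ ‖x‖`
  (minimality of the orthogonal projection: `Submodule.norm_sub_starProjection_le`-like, or Pythagoras).
* `place_classes`: `cover_unit (V l) (ε)` with `ε = s/(2 max Λ 1)`-like constant: `‖p‖ ≤ Λ r`; put `Λ' = max Λ 1`,
  `q = (Λ' r)⁻¹ • p` has norm `≤ 1`; class = index `i` with `‖q - c i‖ ≤ s/(2 Λ')`; two points of the same class have
  distance `≤ Λ' r * 2 * s/(2 Λ') = s r`.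
* `broad_pigeon`: let `m = #{i : p ∈ S i}`, the `≥ θ m²` pairs are distributed over the `N²` pairs of classes
  `(a, b)`; some `(a, b)` has `≥ θ m²/N²` pairs, and at most `#a * m` and at most `m * #b`, so
  `θ m ≤ N² #a`, `θ m ≤ N² #b` (if `m = 0` then choose any pair of classes with `N ≥ 1`; the existence of a pair
  at angle `≥ θ` in the classes is then vacuous: note the statement asks only, if `m > 0`, for such a pair).
-/

noncomputable section

namespace CFS

open Finset Classical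

private theorem star_le {l : ℕ} (U : Submodule ℝ (V l)) (x t : V l) (ht : t ∈ U) :
    ‖x - U.starProjection x‖ ≤ ‖x - t‖ := by
  rw [Submodule.starProjection_minimal]
  exact ciInf_le ⟨0, by rintro _ ⟨y, rfl⟩; positivity⟩ (⟨t, ht⟩ : U)

theorem plane_classes (l : ℕ) (δ : ℝ) (hδ : 0 < δ) : ∃ (N : ℕ) (cls : Submodule ℝ (V l) → ℕ),
    1 ≤ N ∧ (∀ U, cls U < N) ∧ ∀ U U' : Submodule ℝ (V l), cls U = cls U' →
      ∀ x : V l, ∀ t ∈ U, ∃ t' ∈ U', ‖x - t'‖ ≤ ‖x - t‖ + δ * ‖x‖ := by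
  obtain ⟨N, c, hN⟩ := cover_unit (V l →L[ℝ] V l) (δ / 2) (by positivity)
  have hch : ∀ U : Submodule ℝ (V l), ∃ i < N, ‖U.starProjection - c i‖ ≤ δ / 2 :=
    fun U => hN U.starProjection (Submodule.starProjection_norm_le U)
  choose cls hcls1 hcls2 using hch
  refine ⟨N, cls, ?_, hcls1, ?_⟩
  · have := hcls1 ⊥
    omega
  · intro U U' h x t ht
    refine ⟨U'.starProjection x, Submodule.starProjection_apply_mem U' x, ?_⟩
    have h1 : ‖U.starProjection - U'.starProjection‖ ≤ δ := by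
      have e1 : U.starProjection - U'.starProjection =
          (U.starProjection - c (cls U)) - (U'.starProjection - c (cls U')) := by
        rw [h]; abel
      rw [e1]
      refine (norm_sub_le _ _).trans ?_
      have := hcls2 U
      have := hcls2 U'
      linarith
    have h2 : ‖(U.starProjection - U'.starProjection) x‖ ≤ δ * ‖x‖ :=
      ((U.starProjection - U'.starProjection).le_opNorm x).trans
        (mul_le_mul_of_nonneg_right h1 (norm_nonneg x))
    have h3 : x - U'.starProjection x = (x - U.starProjection x) +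
        (U.starProjection - U'.starProjection) x := by
      rw [sub_apply]; abel
    rw [h3]
    refine (norm_add_le _ _).trans ?_
    have := star_le U x t ht
    linarith

theorem place_classes (l : ℕ) (Λ s : ℝ) (hs : 0 < s) : ∃ N : ℕ, ∀ r : ℝ, 0 < r →
    ∃ pl : V l → ℕ, (∀ p, pl p < N) ∧
      ∀ p q : V l, ‖p‖ ≤ Λ * r → ‖q‖ ≤ Λ * r → pl p = pl q → ‖p - q‖ ≤ s * r := by
  have hL : (0 : ℝ) < max Λ 1 := lt_of_lt_of_le one_pos (le_max_right _ _)
  set L := max Λ 1 with hLd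
  obtain ⟨N, c, hN⟩ := cover_unit (V l) (s / (2 * L)) (by positivity)
  refine ⟨N, ?_⟩
  intro r hr
  have hN0 : 0 < N := by
    obtain ⟨i, hi, -⟩ := hN 0 (by simp)
    omega
  have hch : ∀ p : V l, ∃ i < N, ‖p‖ ≤ L * r → ‖(L * r)⁻¹ • p - c i‖ ≤ s / (2 * L) := by
    intro p
    by_cases hp : ‖p‖ ≤ L * r
    · obtain ⟨i, hi, h⟩ := hN ((L * r)⁻¹ • p) (by
        rw [norm_smul, Real.norm_of_nonneg (by positivity), inv_mul_le_iff₀ (by positivity)]
        linarith)
      exact ⟨i, hi, fun _ => h⟩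
    · exact ⟨0, hN0, fun h => absurd h hp⟩
  choose pl h1 h2 using hch
  refine ⟨pl, h1, ?_⟩
  intro p q hp hq hpq
  have hLL : Λ * r ≤ L * r := mul_le_mul_of_nonneg_right (le_max_left _ _) hr.le
  have h3 := h2 p (hp.trans hLL)
  have h4 := h2 q (hq.trans hLL)
  rw [← hpq] at h4
  have h5 : ‖(L * r)⁻¹ • p - (L * r)⁻¹ • q‖ ≤ s / L := by
    have e1 : (L * r)⁻¹ • p - (L * r)⁻¹ • q =
        ((L * r)⁻¹ • p - c (pl p)) - ((L * r)⁻¹ • q - c (pl p)) := by abel
    rw [e1]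
    refine (norm_sub_le _ _).trans ?_
    have e2 : s / (2 * L) + s / (2 * L) = s / L := by field_simp; ring
    linarith
  rw [← smul_sub, norm_smul, Real.norm_of_nonneg (by positivity),
    inv_mul_le_iff₀ (by positivity)] at h5
  refine h5.trans (le_of_eq ?_)
  field_simp

theorem broad_pigeon {l : ℕ} {ι : Type} (θ : ℝ) (hθ : 0 < θ) (I : Finset ι) (S : ι → Set (V l))
    (T : ι → V l → Submodule ℝ (V l)) (p : V l) (hb : Broad θ I S T p) (N : ℕ)
    (cls : Submodule ℝ (V l) → ℕ) (hN : ∀ U, cls U < N)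
    (hm : (I.filter (fun i => p ∈ S i)).Nonempty) :
    ∃ a < N, ∃ b < N,
      (∃ i ∈ I, ∃ j ∈ I, p ∈ S i ∧ p ∈ S j ∧ cls (T i p) = a ∧ cls (T j p) = b ∧
        Ang θ (T i p) (T j p)) ∧
      θ * ((I.filter (fun i => p ∈ S i)).card : ℝ) ≤
        (N : ℝ) ^ 2 * ((I.filter (fun i => p ∈ S i ∧ cls (T i p) = a)).card : ℝ) ∧
      θ * ((I.filter (fun i => p ∈ S i)).card : ℝ) ≤
        (N : ℝ) ^ 2 * ((I.filter (fun i => p ∈ S i ∧ cls (T i p) = b)).card : ℝ) := by
  unfold Broad at hb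
  set m := (I.filter (fun i => p ∈ S i)).card with hmd
  have hm0 : (0 : ℝ) < m := by exact_mod_cast Finset.card_pos.2 hm
  have hN0 : 0 < N := lt_of_le_of_lt (Nat.zero_le _) (hN ⊥)
  have hNr : (0 : ℝ) < N := by exact_mod_cast hN0
  set Q := (I ×ˢ I).filter
    (fun x => p ∈ S x.1 ∧ p ∈ S x.2 ∧ Ang θ (T x.1 p) (T x.2 p)) with hQ
  obtain ⟨y, hy, hyc⟩ := Finset.exists_le_card_fiber_of_nsmul_le_card_of_maps_to
    (s := Q) (t := Finset.range N ×ˢ Finset.range N)
    (f := fun x => (cls (T x.1 p), cls (T x.2 p))) (b := θ * (m : ℝ) ^ 2 / (N : ℝ) ^ 2)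
    (fun x _ => Finset.mem_product.2 ⟨Finset.mem_range.2 (hN _), Finset.mem_range.2 (hN _)⟩)
    ⟨(0, 0), Finset.mem_product.2 ⟨Finset.mem_range.2 hN0, Finset.mem_range.2 hN0⟩⟩
    (by
      rw [Finset.card_product, Finset.card_range, nsmul_eq_mul]
      push_cast
      have : (N : ℝ) * N * (θ * (m : ℝ) ^ 2 / (N : ℝ) ^ 2) = θ * (m : ℝ) ^ 2 := by
        field_simp
      rw [this]
      exact hb)
  obtain ⟨a, b⟩ := y
  rw [Finset.mem_product, Finset.mem_range, Finset.mem_range] at hy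
  set F := Q.filter (fun x => (cls (T x.1 p), cls (T x.2 p)) = (a, b)) with hF
  have hFpos : (0 : ℝ) < F.card := lt_of_lt_of_le (by positivity) hyc
  have hFmem : ∀ x ∈ F, x.1 ∈ I ∧ x.2 ∈ I ∧ p ∈ S x.1 ∧ p ∈ S x.2 ∧ cls (T x.1 p) = a ∧
      cls (T x.2 p) = b ∧ Ang θ (T x.1 p) (T x.2 p) := by
    intro x hx
    obtain ⟨h1, h2⟩ := Finset.mem_filter.1 hx
    obtain ⟨h3, h4, h5, h6⟩ := Finset.mem_filter.1 h1
    obtain ⟨h7, h8⟩ := Finset.mem_product.1 h3
    rw [Prod.mk.injEq] at h2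
    exact ⟨h7, h8, h4, h5, h2.1, h2.2, h6⟩
  have key : ∀ c : ℕ, F.card ≤ c * m → θ * (m : ℝ) ≤ (N : ℝ) ^ 2 * (c : ℝ) := by
    intro c hc
    have h1 : θ * (m : ℝ) ^ 2 / (N : ℝ) ^ 2 ≤ c * m := hyc.trans (by exact_mod_cast hc)
    rw [div_le_iff₀ (by positivity)] at h1
    have h2 : θ * (m : ℝ) * m ≤ (N : ℝ) ^ 2 * (c : ℝ) * m := by nlinarith
    exact le_of_mul_le_mul_right h2 hm0
  refine ⟨a, hy.1, b, hy.2, ?_, ?_, ?_⟩
  · have : 0 < F.card := by exact_mod_cast hFpos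
    obtain ⟨x, hx⟩ := Finset.card_pos.1 this
    obtain ⟨h1, h2, h3, h4, h5, h6, h7⟩ := hFmem x hx
    exact ⟨x.1, h1, x.2, h2, h3, h4, h5, h6, h7⟩
  · apply key
    rw [hmd, ← Finset.card_product]
    apply Finset.card_le_card
    intro x hx
    obtain ⟨h1, h2, h3, h4, h5, h6, h7⟩ := hFmem x hx
    rw [Finset.mem_product, Finset.mem_filter, Finset.mem_filter]
    exact ⟨⟨h1, h3, h5⟩, ⟨h2, h4⟩⟩
  · apply key
    rw [hmd, mul_comm, ← Finset.card_product]
    apply Finset.card_le_card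
    intro x hx
    obtain ⟨h1, h2, h3, h4, h5, h6, h7⟩ := hFmem x hx
    rw [Finset.mem_product, Finset.mem_filter, Finset.mem_filter]
    exact ⟨⟨h1, h3⟩, ⟨h2, h4, h6⟩⟩

end CFS
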