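import Pool.Agent.CFS.Defs

/-!
# Project CFS, part R (broad points): definitions

Everything takes place in `V l = EuclideanSpace ℝ (Fin (2 * l))`.  `T i p` is the (approximate) tangent
plane of the surface `i` at the point `p`.
-/

noncomputable section

namespace CFS

open Finset Classical

/-- euclidean space of dimension `2 l` -/
abbrev V (l : ℕ) : Type := EuclideanSpace ℝ (Fin (2 * l))

/-- the subspaces `U`, `U'` are at angle at least `θ`: unit vectors of `U` and `U'` have distance at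
least `θ` -/
def Ang {l : ℕ} (θ : ℝ) (U U' : Submodule ℝ (V l)) : Prop :=
  ∀ u ∈ U, ∀ v ∈ U', ‖u‖ = 1 → ‖v‖ = 1 → θ ≤ ‖u - v‖

/-- `p` is `θ`-broad: at least `θ m²` of the `m²` pairs of surfaces through `p` are at angle `≥ θ` -/
def Broad {l : ℕ} {ι : Type} (θ : ℝ) (I : Finset ι) (S : ι → Set (V l))
    (T : ι → V l → Submodule ℝ (V l)) (p : V l) : Prop :=
  θ * ((I.filter (fun i => p ∈ S i)).card : ℝ) ^ 2 ≤
    (((I ×ˢ I).filter (fun x => p ∈ S x.1 ∧ p ∈ S x.2 ∧ Ang θ (T x.1 p) (T x.2 p))).card : ℝ)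

end CFS
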