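import Pool.Agent.CFS.R.RDefs

/-!
# Module CFSR-Grid: grid cells of `V l`

The cells are the fibres of `p ↦ (⌊p k / s⌋)_k`, `s = r / (2 l + 1)`.
-/

noncomputable section

namespace CFS

open Finset Classical

theorem grid_cells (l : ℕ) (Λ : ℝ) : ∃ N : ℕ, 1 ≤ N ∧ ∀ r : ℝ, 0 < r →
    ∃ cell : V l → (Fin (2 * l) → ℤ),
      (∀ p q : V l, cell p = cell q → ‖p - q‖ ≤ r) ∧
      ∀ Q : Finset (V l), (∀ p ∈ Q, ∀ q ∈ Q, ‖p - q‖ ≤ Λ * r) → (Q.image cell).card ≤ N := by
  set n0 : ℕ := ⌈Λ * (2 * l + 1)⌉₊ + 1 with hn0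
  refine ⟨(2 * n0 + 1) ^ (2 * l), Nat.one_le_pow _ _ (by omega), fun r hr => ?_⟩
  have hl : (0 : ℝ) < 2 * (l : ℝ) + 1 := by positivity
  set s : ℝ := r / (2 * l + 1) with hs
  have hs0 : 0 < s := div_pos hr hl
  have hrs : r = (2 * l + 1) * s := by
    rw [hs]
    field_simp
  refine ⟨fun p k => ⌊p k / s⌋, ?_, ?_⟩
  · intro p q hpq
    have h1 : ∀ k, |(p - q) k| ≤ s := by
      intro k
      have h2 : ⌊p k / s⌋ = ⌊q k / s⌋ := congrFun hpq k
      have h3 := Int.abs_sub_lt_one_of_floor_eq_floor h2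
      rw [← sub_div, abs_div, abs_of_pos hs0, div_lt_one hs0] at h3
      rw [PiLp.sub_apply]
      exact h3.le
    have h4 : ‖p - q‖ ^ 2 ≤ r ^ 2 := by
      rw [EuclideanSpace.norm_sq_eq]
      have h5 : ∑ k : Fin (2 * l), ‖(p - q) k‖ ^ 2 ≤ ∑ k : Fin (2 * l), s ^ 2 := by
        refine Finset.sum_le_sum fun k _ => ?_
        rw [Real.norm_eq_abs]
        exact pow_le_pow_left₀ (abs_nonneg _) (h1 k) 2
      rw [Finset.sum_const, Finset.card_univ, Fintype.card_fin, nsmul_eq_mul] at h5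
      push_cast at h5
      refine h5.trans ?_
      rw [hrs, mul_pow]
      refine mul_le_mul_of_nonneg_right ?_ (sq_nonneg s)
      have h6 : (0 : ℝ) ≤ (l : ℝ) := Nat.cast_nonneg l
      nlinarith
    exact abs_le_of_sq_le_sq' h4 hr.le |>.2
  · intro Q hQ
    rcases Q.eq_empty_or_nonempty with h0 | ⟨q0, hq0⟩
    · rw [h0, Finset.image_empty, Finset.card_empty]
      exact Nat.zero_le _
    · have h1 : Q.image (fun (p : V l) (k : Fin (2 * l)) => ⌊p k / s⌋) ⊆
          Fintype.piFinset fun k => Finset.Icc (⌊q0 k / s⌋ - (n0 : ℤ)) (⌊q0 k / s⌋ + (n0 : ℤ)) := by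
        intro c hc
        obtain ⟨p, hp, rfl⟩ := Finset.mem_image.1 hc
        rw [Fintype.mem_piFinset]
        intro k
        have h2 : |p k - q0 k| ≤ Λ * r := by
          have h3 := PiLp.norm_apply_le (p - q0) k
          rw [PiLp.sub_apply, Real.norm_eq_abs] at h3
          exact h3.trans (hQ p hp q0 hq0)
        have h4 : |p k / s - q0 k / s| ≤ Λ * (2 * l + 1) := by
          rw [← sub_div, abs_div, abs_of_pos hs0, div_le_iff₀ hs0]
          refine h2.trans (le_of_eq ?_)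
          rw [hrs]
          ring
        have h5 := abs_le.1 h4
        have h6 : Λ * (2 * l + 1) + 1 ≤ (n0 : ℝ) := by
          rw [hn0]
          push_cast
          linarith [Nat.le_ceil (Λ * (2 * (l : ℝ) + 1))]
        have h7 := Int.floor_le (p k / s)
        have h8 := Int.lt_floor_add_one (p k / s)
        have h9 := Int.floor_le (q0 k / s)
        have h10 := Int.lt_floor_add_one (q0 k / s)
        rw [Finset.mem_Icc]
        constructor
        · have h11 : ((⌊q0 k / s⌋ - (n0 : ℤ) : ℤ) : ℝ) ≤ ((⌊p k / s⌋ : ℤ) : ℝ) := by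
            push_cast
            linarith
          exact_mod_cast h11
        · have h11 : ((⌊p k / s⌋ : ℤ) : ℝ) ≤ ((⌊q0 k / s⌋ + (n0 : ℤ) : ℤ) : ℝ) := by
            push_cast
            linarith
          exact_mod_cast h11
      refine (Finset.card_le_card h1).trans ?_
      rw [Fintype.card_piFinset]
      have h2 : ∀ k : Fin (2 * l),
          (Finset.Icc (⌊q0 k / s⌋ - (n0 : ℤ)) (⌊q0 k / s⌋ + (n0 : ℤ))).card = 2 * n0 + 1 := by
        intro k
        rw [Int.card_Icc]
        omega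
      rw [Finset.prod_congr rfl fun k _ => h2 k, Finset.prod_const, Finset.card_univ,
        Fintype.card_fin]

end CFS
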