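import Mathlib

/-!
# Module CFSR-Hold: Hoelder inequality for the sum over the cells
-/

namespace CFS

open Finset

theorem sum_holder {γ : Type*} (s : Finset γ) (m n : γ → ℝ) (k : ℕ) (hk : 2 ≤ k) (M' N' N : ℝ)
    (hm : ∀ c ∈ s, 0 ≤ m c) (hn : ∀ c ∈ s, 0 ≤ n c) (hnN : ∀ c ∈ s, n c ≤ N') (hN0 : 0 ≤ N')
    (hN : 1 ≤ N) (hms : ∑ c ∈ s, m c ≤ M') (hns : ∑ c ∈ s, n c ≤ N * N') :
    ∑ c ∈ s, (m c) ^ ((k : ℝ) / (2 * k - 1)) * (n c) ^ ((2 * k - 2 : ℝ) / (2 * k - 1)) ≤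
      N * (M' ^ ((k : ℝ) / (2 * k - 1)) * N' ^ ((2 * k - 2 : ℝ) / (2 * k - 1))) := by
  have hk' : (2 : ℝ) ≤ k := by exact_mod_cast hk
  have h1 : (0 : ℝ) < 2 * k - 1 := by linarith
  have h2 : (0 : ℝ) < k - 1 := by linarith
  have h3 : (0 : ℝ) < k := by linarith
  have hpq : Real.HolderConjugate ((2 * k - 1) / k : ℝ) ((2 * k - 1) / (k - 1)) := by
    rw [Real.holderConjugate_iff]
    constructor
    · rw [lt_div_iff₀ h3]
      linarith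
    · rw [inv_div, inv_div, ← add_div, div_eq_one_iff_eq h1.ne']
      ring
  have key := Real.inner_le_Lp_mul_Lq_of_nonneg s hpq
    (f := fun c => m c ^ ((k : ℝ) / (2 * k - 1)))
    (g := fun c => n c ^ ((2 * k - 2 : ℝ) / (2 * k - 1)))
    (fun c hc => Real.rpow_nonneg (hm c hc) _) (fun c hc => Real.rpow_nonneg (hn c hc) _)
  refine key.trans ?_
  have e1 : ∑ c ∈ s, (m c ^ ((k : ℝ) / (2 * k - 1))) ^ ((2 * k - 1) / k : ℝ) =
      ∑ c ∈ s, m c := by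
    refine Finset.sum_congr rfl fun c hc => ?_
    rw [← Real.rpow_mul (hm c hc)]
    have h4 : (k : ℝ) / (2 * k - 1) * ((2 * k - 1) / k) = 1 := by
      rw [div_mul_div_comm, mul_comm]
      exact div_self (mul_pos h1 h3).ne'
    rw [h4, Real.rpow_one]
  have e2 : ∑ c ∈ s, (n c ^ ((2 * k - 2 : ℝ) / (2 * k - 1))) ^ ((2 * k - 1) / (k - 1) : ℝ) =
      ∑ c ∈ s, n c ^ 2 := by
    refine Finset.sum_congr rfl fun c hc => ?_
    rw [← Real.rpow_mul (hn c hc)]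
    have h4 : (2 * k - 2 : ℝ) / (2 * k - 1) * ((2 * k - 1) / (k - 1)) = 2 := by
      rw [div_mul_div_comm, div_eq_iff (mul_pos h1 h2).ne']
      ring
    rw [h4]
    exact Real.rpow_two _
  have e3 : 1 / ((2 * k - 1) / k : ℝ) = k / (2 * k - 1) := by rw [one_div, inv_div]
  have e4 : 1 / ((2 * k - 1) / (k - 1) : ℝ) = (k - 1) / (2 * k - 1) := by rw [one_div, inv_div]
  rw [e1, e2, e3, e4]
  have hM0 : 0 ≤ M' := (Finset.sum_nonneg hm).trans hms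
  have b1 : (∑ c ∈ s, m c) ^ ((k : ℝ) / (2 * k - 1)) ≤ M' ^ ((k : ℝ) / (2 * k - 1)) :=
    Real.rpow_le_rpow (Finset.sum_nonneg hm) hms (div_nonneg h3.le h1.le)
  have b2 : ∑ c ∈ s, n c ^ 2 ≤ N * N' ^ 2 := by
    calc ∑ c ∈ s, n c ^ 2 ≤ ∑ c ∈ s, N' * n c := by
          refine Finset.sum_le_sum fun c hc => ?_
          rw [pow_two]
          exact mul_le_mul_of_nonneg_right (hnN c hc) (hn c hc)
      _ = N' * ∑ c ∈ s, n c := (Finset.mul_sum _ _ _).symm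
      _ ≤ N' * (N * N') := mul_le_mul_of_nonneg_left hns hN0
      _ = N * N' ^ 2 := by ring
  have hsq : 0 ≤ ∑ c ∈ s, n c ^ 2 := Finset.sum_nonneg fun c _ => sq_nonneg _
  have hr0 : (0 : ℝ) ≤ (k - 1) / (2 * k - 1) := div_nonneg h2.le h1.le
  have hr1 : ((k : ℝ) - 1) / (2 * k - 1) ≤ 1 := by
    rw [div_le_one h1]
    linarith
  have b3 : (∑ c ∈ s, n c ^ 2) ^ (((k : ℝ) - 1) / (2 * k - 1)) ≤
      N * N' ^ ((2 * k - 2 : ℝ) / (2 * k - 1)) := by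
    calc (∑ c ∈ s, n c ^ 2) ^ (((k : ℝ) - 1) / (2 * k - 1))
        ≤ (N * N' ^ 2) ^ (((k : ℝ) - 1) / (2 * k - 1)) := Real.rpow_le_rpow hsq b2 hr0
      _ = N ^ (((k : ℝ) - 1) / (2 * k - 1)) * (N' ^ 2) ^ (((k : ℝ) - 1) / (2 * k - 1)) :=
          Real.mul_rpow (by linarith) (sq_nonneg _)
      _ = N ^ (((k : ℝ) - 1) / (2 * k - 1)) * N' ^ ((2 * k - 2 : ℝ) / (2 * k - 1)) := by
          have h5 : (2 * k - 2 : ℝ) / (2 * k - 1) = 2 * (((k : ℝ) - 1) / (2 * k - 1)) := by ring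
          rw [h5, Real.rpow_mul hN0, Real.rpow_two]
      _ ≤ N * N' ^ ((2 * k - 2 : ℝ) / (2 * k - 1)) := by
          refine mul_le_mul_of_nonneg_right ?_ (Real.rpow_nonneg hN0 _)
          calc N ^ (((k : ℝ) - 1) / (2 * k - 1)) ≤ N ^ (1 : ℝ) :=
                Real.rpow_le_rpow_of_exponent_le hN hr1
            _ = N := Real.rpow_one _
  calc (∑ c ∈ s, m c) ^ ((k : ℝ) / (2 * k - 1)) *
        (∑ c ∈ s, n c ^ 2) ^ (((k : ℝ) - 1) / (2 * k - 1))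
      ≤ M' ^ ((k : ℝ) / (2 * k - 1)) * (N * N' ^ ((2 * k - 2 : ℝ) / (2 * k - 1))) :=
        mul_le_mul b1 b3 (Real.rpow_nonneg hsq _) (Real.rpow_nonneg hM0 _)
    _ = N * (M' ^ ((k : ℝ) / (2 * k - 1)) * N' ^ ((2 * k - 2 : ℝ) / (2 * k - 1))) := by ring

end CFS
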