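import Pool.Agent.CFS.ThmA

/-!
# Module CFSR-MapA: Theorem A after an injective map

Plan.  Apply `two_sided` to `P.image g`, `H' i = {z | ∃ p ∈ P, H p i ∧ g p = z}`, `V' i` similarly (see the proof of
`core_map` in `CFS/Core2.lean`).  `g p ∈ H' i ↔ H p i` for `p ∈ P` (injectivity on `P`), so the sums agree
(`Finset.sum_image`), the cards agree, and for `T ⊆ P.image g`, `T.card = k`, `T = T0.image g` with `T0 ⊆ P`,
`T0.card = k` (`Finset.subset_image_iff`, `T0 = P.filter (g · ∈ T)`).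
-/

noncomputable section

namespace CFS

open Finset Classical

/-- the image of a relation on `P` under `g` -/
private def mpx {l : ℕ} {ι X : Type} (P : Finset X) (g : X → W l) (H : X → ι → Prop) (i : ι) :
    Set (W l) := {z | ∃ p ∈ P, H p i ∧ g p = z}

private theorem mpx_iff {l : ℕ} {ι X : Type} {P : Finset X} {g : X → W l} {H : X → ι → Prop}
    (hg : ∀ p ∈ P, ∀ q ∈ P, g p = g q → p = q) {i : ι} {p : X} (hp : p ∈ P) :
    g p ∈ mpx P g H i ↔ H p i := by
  constructor
  · rintro ⟨q, hq, hqH, e⟩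
    rw [← hg q hq p hp e]
    exact hqH
  · intro h
    exact ⟨p, hp, h, rfl⟩

private theorem mpx_few {l k C : ℕ} {ι X : Type} {I : Finset ι} {P : Finset X} {g : X → W l}
    {H : X → ι → Prop} (hg : ∀ p ∈ P, ∀ q ∈ P, g p = g q → p = q)
    (h : ∀ T : Finset X, T ⊆ P → T.card = k → (I.filter (fun i => ∀ p ∈ T, H p i)).card ≤ C)
    (T : Finset (W l)) (hT : T ⊆ P.image g) (hc : T.card = k) :
    (I.filter (fun i => ∀ p ∈ T, p ∈ mpx P g H i)).card ≤ C := by
  have hT0 : (P.filter (fun p => g p ∈ T)).image g = T := by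
    ext z
    rw [Finset.mem_image]
    constructor
    · rintro ⟨p, hp, rfl⟩
      exact (Finset.mem_filter.1 hp).2
    · intro hz
      obtain ⟨p, hp, rfl⟩ := Finset.mem_image.1 (hT hz)
      exact ⟨p, Finset.mem_filter.2 ⟨hp, hz⟩, rfl⟩
  have hcard : (P.filter (fun p => g p ∈ T)).card = k := by
    rw [← hc, ← hT0, hT0]
    rw [← Finset.card_image_of_injOn (s := P.filter (fun p => g p ∈ T)) (f := g), hT0]
    intro p hp q hq e
    exact hg p (Finset.mem_filter.1 hp).1 q (Finset.mem_filter.1 hq).1 e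
  refine le_trans (Finset.card_le_card ?_) (h (P.filter (fun p => g p ∈ T))
    (Finset.filter_subset _ _) hcard)
  intro i hi
  obtain ⟨hiI, hi⟩ := Finset.mem_filter.1 hi
  refine Finset.mem_filter.2 ⟨hiI, ?_⟩
  intro p hp
  obtain ⟨hpP, hpT⟩ := Finset.mem_filter.1 hp
  exact (mpx_iff hg hpP).1 (hi (g p) hpT)

theorem two_sided_map (l k C : ℕ) (hk : 2 ≤ k) : ∃ A : ℝ, 0 ≤ A ∧
    ∀ {ι X : Type} (I : Finset ι) (P : Finset X) (g : X → W l) (H V : X → ι → Prop),
      (∀ p ∈ P, ∀ q ∈ P, g p = g q → p = q) →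
      (∀ i ∈ I, ∀ p ∈ P, ∀ q ∈ P, H p i → H q i → Hor (g p) (g q)) →
      (∀ i ∈ I, ∀ p ∈ P, ∀ q ∈ P, V p i → V q i → Ver (g p) (g q)) →
      (∀ T : Finset X, T ⊆ P → T.card = k → (I.filter (fun i => ∀ p ∈ T, H p i)).card ≤ C) →
      (∀ T : Finset X, T ⊆ P → T.card = k → (I.filter (fun i => ∀ p ∈ T, V p i)).card ≤ C) →
      ((∑ p ∈ P, min (I.filter (fun i => H p i)).card (I.filter (fun i => V p i)).card : ℕ) : ℝ) ≤
        A * ((P.card : ℝ) ^ ((k : ℝ) / (2 * k - 1)) *
          (I.card : ℝ) ^ ((2 * k - 2 : ℝ) / (2 * k - 1)) + P.card + I.card) := by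
  obtain ⟨A, hA, h⟩ := two_sided l k C hk
  refine ⟨A, hA, ?_⟩
  intro ι X I P g H V hg hH hV fH fV
  have hcard : (P.image g).card = P.card :=
    Finset.card_image_of_injOn fun p hp q hq e => hg p hp q hq e
  have hS : System l k C I (P.image g) (mpx P g H) (mpx P g V) := by
    refine ⟨?_, ?_, mpx_few hg fH, mpx_few hg fV⟩
    · rintro i hi z hz z' hz' ⟨p, hp, hpH, rfl⟩ ⟨q, hq, hqH, rfl⟩
      exact hH i hi p hp q hq hpH hqH
    · rintro i hi z hz z' hz' ⟨p, hp, hpH, rfl⟩ ⟨q, hq, hqH, rfl⟩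
      exact hV i hi p hp q hq hpH hqH
  have h1 := h I (P.image g) (mpx P g H) (mpx P g V) hS
  rw [hcard, Finset.sum_image (fun p hp q hq e => hg p hp q hq e)] at h1
  have h2 : ∑ p ∈ P, min (I.filter (fun i => H p i)).card (I.filter (fun i => V p i)).card =
      ∑ p ∈ P, min (I.filter (fun i => g p ∈ mpx P g H i)).card
        (I.filter (fun i => g p ∈ mpx P g V i)).card := by
    refine Finset.sum_congr rfl fun p hp => ?_
    have e1 : I.filter (fun i => g p ∈ mpx P g H i) = I.filter (fun i => H p i) :=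
      Finset.filter_congr fun i _ => mpx_iff hg hp
    have e2 : I.filter (fun i => g p ∈ mpx P g V i) = I.filter (fun i => V p i) :=
      Finset.filter_congr fun i _ => mpx_iff hg hp
    rw [e1, e2]
  rw [h2]
  exact h1

end CFS
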