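import Pool.Agent.CFS.R.RMap
import Pool.Agent.CFS.R.RCls
import Pool.Agent.CFS.R.RMapA

/-!
# Module CFSR-Main: incidences at broad points, surfaces which are flat up to `η` at the scale `r`

Plan.  `θ' = min θ 1`; `Broad θ → Broad θ'` (`Ang` is monotone, `θ'` smaller on the left); so assume
`0 < θ ≤ 1`.  `η = θ/(800 (l+1))` (for the statement: `η` = this number for `θ' = min θ 1`).
`plane_classes l η` gives `N, cls`; `place_classes l Λ 1` gives `N'` and, for the given `r`, `pl`.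
Let `P0` be the set of the points of `P` on at least one surface (the others contribute 0).
For each `p ∈ P0`, `broad_pigeon` gives `(a, b)`.  For `a b < N`, `c < N'` let `P a b c` be the set of the
`p ∈ P0` with `pl p = c` and for which `(a, b)` satisfies the conclusion of `broad_pigeon`.  If `P a b c` is
nonempty, choose `p0` in it, `i0, j0` with `cls (T i0 p0) = a`, `cls (T j0 p0) = b`, `Ang θ (T i0 p0) (T j0 p0)`, and the map
`G` of `pair_map` for `U = T i0 p0`, `U' = T j0 p0` (dimension `l`).  For `p q ∈ P a b c`, `i ∈ I` with `p, q ∈ S i`,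
`cls (T i p) = a`: `x = q - p`, `‖x‖ ≤ r`, there is `t ∈ T i p` with `‖x - t‖ ≤ η ‖x‖`, so by `plane_classes` there is
`t' ∈ U` with `‖x - t'‖ ≤ 2 η ‖x‖ = θ/(400(l+1)) ‖x‖`, so `‖(G x).2‖ ≤ ‖(G x).1‖/100`, i.e. `Hor (G q) (G p)`
(`dist_eq_norm`, `map_sub`; `Hor` is symmetric).  The same for `b` and `Ver`.
`two_sided_map` with `H p i = (p ∈ S i ∧ cls (T i p) = a)`, `V p i = (p ∈ S i ∧ cls (T i p) = b)` on `P a b c`
gives (`m = #{i : p ∈ S i} ≤ (N²/θ) min(#a, #b)`)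
`Σ_{p ∈ P a b c} m_p ≤ (N²/θ) A0 (|P|^.. |I|^.. + |P| + |I|)` (monotone in `|P a b c| ≤ |P|`,
`Real.rpow_le_rpow`).  Sum over the `N² N'` triples: `A = N² N' (N²/θ) A0`.
-/

noncomputable section

namespace CFS

open Finset Classical

private theorem rm_ang {l : ℕ} {θ θ' : ℝ} (h : θ' ≤ θ) {U U' : Submodule ℝ (V l)} (hA : Ang θ U U') :
    Ang θ' U U' := fun u hu v hv h1 h2 => h.trans (hA u hu v hv h1 h2)

private theorem rm_broad {l : ℕ} {ι : Type} {θ θ' : ℝ} (h : θ' ≤ θ) {I : Finset ι} {S : ι → Set (V l)}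
    {T : ι → V l → Submodule ℝ (V l)} {p : V l} (hb : Broad θ I S T p) : Broad θ' I S T p := by
  unfold Broad at hb ⊢
  refine (mul_le_mul_of_nonneg_right h (by positivity)).trans (hb.trans ?_)
  have h1 : (I ×ˢ I).filter (fun x => p ∈ S x.1 ∧ p ∈ S x.2 ∧ Ang θ (T x.1 p) (T x.2 p)) ⊆
      (I ×ˢ I).filter (fun x => p ∈ S x.1 ∧ p ∈ S x.2 ∧ Ang θ' (T x.1 p) (T x.2 p)) := by
    intro x hx
    rw [mem_filter] at hx ⊢
    exact ⟨hx.1, hx.2.1, hx.2.2.1, rm_ang h hx.2.2.2⟩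
  exact_mod_cast card_le_card h1

/-- one class: the two-sided bound after the linear map -/
private theorem rm_class (l k C : ℕ) (θ η A0 : ℝ) (hθ : 0 < θ) (hθ1 : θ ≤ 1)
    (hη : η = θ / (800 * (l + 1))) (hk : 2 ≤ k) (hA0 : 0 ≤ A0) {ι : Type}
    (h2 : ∀ (I : Finset ι) (P : Finset (V l)) (g : V l → W l) (H V : V l → ι → Prop),
      (∀ p ∈ P, ∀ q ∈ P, g p = g q → p = q) →
      (∀ i ∈ I, ∀ p ∈ P, ∀ q ∈ P, H p i → H q i → Hor (g p) (g q)) →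
      (∀ i ∈ I, ∀ p ∈ P, ∀ q ∈ P, V p i → V q i → Ver (g p) (g q)) →
      (∀ T : Finset (_root_.CFS.V l), T ⊆ P → T.card = k → (I.filter (fun i => ∀ p ∈ T, H p i)).card ≤ C) →
      (∀ T : Finset (_root_.CFS.V l), T ⊆ P → T.card = k → (I.filter (fun i => ∀ p ∈ T, V p i)).card ≤ C) →
      ((∑ p ∈ P, min (I.filter (fun i => H p i)).card (I.filter (fun i => V p i)).card : ℕ) : ℝ) ≤
        A0 * ((P.card : ℝ) ^ ((k : ℝ) / (2 * k - 1)) *
          (I.card : ℝ) ^ ((2 * k - 2 : ℝ) / (2 * k - 1)) + P.card + I.card))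
    (N : ℕ) (cls : Submodule ℝ (V l) → ℕ)
    (hpc : ∀ U U' : Submodule ℝ (V l), cls U = cls U' →
      ∀ x : V l, ∀ t ∈ U, ∃ t' ∈ U', ‖x - t'‖ ≤ ‖x - t‖ + η * ‖x‖)
    (I : Finset ι) (P Q : Finset (V l)) (hQP : Q ⊆ P)
    (S : ι → Set (V l)) (T : ι → V l → Submodule ℝ (V l)) (r : ℝ)
    (hfr : ∀ i ∈ I, ∀ p ∈ P, p ∈ S i → Module.finrank ℝ (T i p) = l)
    (hfl : ∀ i ∈ I, ∀ p ∈ P, ∀ q ∈ P, p ∈ S i → q ∈ S i → ‖q - p‖ ≤ r →
        ∃ t ∈ T i p, ‖q - p - t‖ ≤ η * ‖q - p‖)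
    (hcd : ∀ Y : Finset (V l), Y ⊆ P → Y.card = k → (I.filter (fun i => ∀ p ∈ Y, p ∈ S i)).card ≤ C)
    (hd : ∀ p ∈ Q, ∀ q ∈ Q, ‖p - q‖ ≤ r) (a b : ℕ)
    (hQ : ∀ p ∈ Q, (∃ i ∈ I, ∃ j ∈ I, p ∈ S i ∧ p ∈ S j ∧ cls (T i p) = a ∧ cls (T j p) = b ∧
        Ang θ (T i p) (T j p)) ∧
      θ * ((I.filter (fun i => p ∈ S i)).card : ℝ) ≤
        (N : ℝ) ^ 2 * ((I.filter (fun i => p ∈ S i ∧ cls (T i p) = a)).card : ℝ) ∧
      θ * ((I.filter (fun i => p ∈ S i)).card : ℝ) ≤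
        (N : ℝ) ^ 2 * ((I.filter (fun i => p ∈ S i ∧ cls (T i p) = b)).card : ℝ)) :
    ((∑ p ∈ Q, (I.filter (fun i => p ∈ S i)).card : ℕ) : ℝ) ≤
      (N : ℝ) ^ 2 / θ * (A0 * ((P.card : ℝ) ^ ((k : ℝ) / (2 * k - 1)) *
          (I.card : ℝ) ^ ((2 * k - 2 : ℝ) / (2 * k - 1)) + P.card + I.card)) := by
  have hB0 : 0 ≤ A0 * ((P.card : ℝ) ^ ((k : ℝ) / (2 * k - 1)) *
      (I.card : ℝ) ^ ((2 * k - 2 : ℝ) / (2 * k - 1)) + P.card + I.card) := by positivity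
  rcases Q.eq_empty_or_nonempty with hQ0 | ⟨p0, hp0⟩
  · rw [hQ0, sum_empty, Nat.cast_zero]
    positivity
  obtain ⟨⟨i0, hi0, j0, hj0, hpi, hpj, hca, hcb, hang⟩, -, -⟩ := hQ p0 hp0
  obtain ⟨G, hGi, hG1, hG2⟩ := pair_map l θ hθ hθ1 (T i0 p0) (T j0 p0)
    (hfr i0 hi0 p0 (hQP hp0) hpi) (hfr j0 hj0 p0 (hQP hp0) hpj) hang
  have key : ∀ (U : Submodule ℝ (V l)) (c : ℕ), cls U = c → ∀ i ∈ I, ∀ p ∈ Q, ∀ q ∈ Q,
      (p ∈ S i ∧ cls (T i p) = c) → (q ∈ S i ∧ cls (T i q) = c) →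
      ∃ t ∈ U, ‖(p - q) - t‖ ≤ θ / (400 * (l + 1)) * ‖p - q‖ := by
    intro U c hU i hi p hp q hq h1 h2
    obtain ⟨t, ht, ht2⟩ := hfl i hi q (hQP hq) p (hQP hp) h2.1 h1.1 (hd p hp q hq)
    obtain ⟨t', ht', ht2'⟩ := hpc (T i q) U (h2.2.trans hU.symm) (p - q) t ht
    refine ⟨t', ht', ht2'.trans ?_⟩
    have h3 : θ / (400 * ((l : ℝ) + 1)) * ‖p - q‖ = η * ‖p - q‖ + η * ‖p - q‖ := by
      rw [hη]
      have : (l : ℝ) + 1 ≠ 0 := by positivity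
      field_simp
      ring
    rw [h3]
    linarith
  obtain ⟨H, hH⟩ : ∃ H : V l → ι → Prop, ∀ p i, H p i ↔ (p ∈ S i ∧ cls (T i p) = a) :=
    ⟨_, fun _ _ => Iff.rfl⟩
  obtain ⟨K, hK⟩ : ∃ H : V l → ι → Prop, ∀ p i, H p i ↔ (p ∈ S i ∧ cls (T i p) = b) :=
    ⟨_, fun _ _ => Iff.rfl⟩
  have hHc : ∀ p, (I.filter (fun i => H p i)) = I.filter (fun i => p ∈ S i ∧ cls (T i p) = a) :=
    fun p => filter_congr fun i _ => hH p i
  have hKc : ∀ p, (I.filter (fun i => K p i)) = I.filter (fun i => p ∈ S i ∧ cls (T i p) = b) :=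
    fun p => filter_congr fun i _ => hK p i
  have hmain := h2 I Q (fun x => G x) H K (fun p _ q _ h => hGi h)
    (fun i hi p hp q hq h1 h2 => by
      have h3 := hG1 (p - q) (key (T i0 p0) a hca i hi p hp q hq ((hH p i).1 h1) ((hH q i).1 h2))
      unfold Hor
      rw [dist_eq_norm, dist_eq_norm]
      rw [map_sub, Prod.snd_sub, Prod.fst_sub] at h3
      exact h3)
    (fun i hi p hp q hq h1 h2 => by
      have h3 := hG2 (p - q) (key (T j0 p0) b hcb i hi p hp q hq ((hK p i).1 h1) ((hK q i).1 h2))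
      unfold Ver
      rw [dist_eq_norm, dist_eq_norm]
      rw [map_sub, Prod.snd_sub, Prod.fst_sub] at h3
      exact h3)
    (fun Y hY hYk => by
      refine (card_le_card ?_).trans (hcd Y (hY.trans hQP) hYk)
      intro i hi
      rw [mem_filter] at hi ⊢
      exact ⟨hi.1, fun p hp => ((hH p i).1 (hi.2 p hp)).1⟩)
    (fun Y hY hYk => by
      refine (card_le_card ?_).trans (hcd Y (hY.trans hQP) hYk)
      intro i hi
      rw [mem_filter] at hi ⊢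
      exact ⟨hi.1, fun p hp => ((hK p i).1 (hi.2 p hp)).1⟩)
  simp only [hHc, hKc] at hmain
  have hQc : (Q.card : ℝ) ≤ P.card := by exact_mod_cast card_le_card hQP
  have hk1 : (0 : ℝ) < 2 * k - 1 := by
    have : (2 : ℝ) ≤ k := by exact_mod_cast hk
    linarith
  have hmono : A0 * ((Q.card : ℝ) ^ ((k : ℝ) / (2 * k - 1)) *
      (I.card : ℝ) ^ ((2 * k - 2 : ℝ) / (2 * k - 1)) + Q.card + I.card) ≤
      A0 * ((P.card : ℝ) ^ ((k : ℝ) / (2 * k - 1)) *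
      (I.card : ℝ) ^ ((2 * k - 2 : ℝ) / (2 * k - 1)) + P.card + I.card) := by
    refine mul_le_mul_of_nonneg_left ?_ hA0
    have h3 : (Q.card : ℝ) ^ ((k : ℝ) / (2 * k - 1)) ≤ (P.card : ℝ) ^ ((k : ℝ) / (2 * k - 1)) :=
      Real.rpow_le_rpow (by positivity) hQc (div_nonneg (by positivity) hk1.le)
    have h4 := mul_le_mul_of_nonneg_right h3
      (Real.rpow_nonneg (by positivity : (0 : ℝ) ≤ (I.card : ℝ)) ((2 * k - 2 : ℝ) / (2 * k - 1)))
    linarith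
  have hpt : ∀ p ∈ Q, ((I.filter (fun i => p ∈ S i)).card : ℝ) ≤ (N : ℝ) ^ 2 / θ *
      ((min (I.filter (fun i => p ∈ S i ∧ cls (T i p) = a)).card
        (I.filter (fun i => p ∈ S i ∧ cls (T i p) = b)).card : ℕ) : ℝ) := by
    intro p hp
    obtain ⟨-, h1, h2⟩ := hQ p hp
    rw [div_mul_eq_mul_div, le_div_iff₀ hθ, mul_comm _ θ]
    rcases min_choice (I.filter (fun i => p ∈ S i ∧ cls (T i p) = a)).card
      (I.filter (fun i => p ∈ S i ∧ cls (T i p) = b)).card with h | h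
    · rw [h]
      exact h1
    · rw [h]
      exact h2
  calc ((∑ p ∈ Q, (I.filter (fun i => p ∈ S i)).card : ℕ) : ℝ)
      = ∑ p ∈ Q, ((I.filter (fun i => p ∈ S i)).card : ℝ) := by push_cast; rfl
    _ ≤ ∑ p ∈ Q, (N : ℝ) ^ 2 / θ *
      ((min (I.filter (fun i => p ∈ S i ∧ cls (T i p) = a)).card
        (I.filter (fun i => p ∈ S i ∧ cls (T i p) = b)).card : ℕ) : ℝ) := sum_le_sum hpt
    _ = (N : ℝ) ^ 2 / θ * ((∑ p ∈ Q, min (I.filter (fun i => p ∈ S i ∧ cls (T i p) = a)).card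
        (I.filter (fun i => p ∈ S i ∧ cls (T i p) = b)).card : ℕ) : ℝ) := by
        rw [← mul_sum, Nat.cast_sum]
    _ ≤ _ := mul_le_mul_of_nonneg_left (hmain.trans hmono) (by positivity)

theorem broad_main (l : ℕ) (θ : ℝ) (hθ : 0 < θ) : ∃ η : ℝ, 0 < η ∧
    ∀ (k C : ℕ) (Λ : ℝ), 2 ≤ k → ∃ A : ℝ, ∀ {ι : Type} (I : Finset ι) (P : Finset (V l))
      (S : ι → Set (V l)) (T : ι → V l → Submodule ℝ (V l)) (r : ℝ), 0 < r →
      (∀ p ∈ P, ‖p‖ ≤ Λ * r) →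
      (∀ i ∈ I, ∀ p ∈ P, p ∈ S i → Module.finrank ℝ (T i p) = l) →
      (∀ i ∈ I, ∀ p ∈ P, ∀ q ∈ P, p ∈ S i → q ∈ S i → ‖q - p‖ ≤ r →
        ∃ t ∈ T i p, ‖q - p - t‖ ≤ η * ‖q - p‖) →
      (∀ Y : Finset (V l), Y ⊆ P → Y.card = k → (I.filter (fun i => ∀ p ∈ Y, p ∈ S i)).card ≤ C) →
      (∀ p ∈ P, Broad θ I S T p) →
      ((∑ p ∈ P, (I.filter (fun i => p ∈ S i)).card : ℕ) : ℝ) ≤
        A * ((P.card : ℝ) ^ ((k : ℝ) / (2 * k - 1)) *
          (I.card : ℝ) ^ ((2 * k - 2 : ℝ) / (2 * k - 1)) + P.card + I.card) := by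
  set θ' := min θ 1 with hθ'
  have hθ0 : 0 < θ' := lt_min hθ one_pos
  have hθ1 : θ' ≤ 1 := min_le_right _ _
  have hθθ : θ' ≤ θ := min_le_left _ _
  refine ⟨θ' / (800 * (l + 1)), by positivity, ?_⟩
  set η := θ' / (800 * ((l : ℝ) + 1)) with hη
  have hη0 : 0 < η := by positivity
  intro k C Λ hk
  obtain ⟨N, cls, hN1, hcls, hpc⟩ := plane_classes l η hη0
  obtain ⟨N', hpl⟩ := place_classes l Λ 1 one_pos
  obtain ⟨A0, hA0, h2⟩ := two_sided_map l k C hk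
  refine ⟨(N : ℝ) * (N * N') * ((N : ℝ) ^ 2 / θ' * A0), ?_⟩
  intro ι I P S T r hr hP hfr hfl hcd hb
  obtain ⟨pl, hpl1, hpl2⟩ := hpl r hr
  let Qf : ℕ × ℕ × ℕ → Finset (V l) := fun x => P.filter (fun p => pl p = x.2.2 ∧
    ((∃ i ∈ I, ∃ j ∈ I, p ∈ S i ∧ p ∈ S j ∧ cls (T i p) = x.1 ∧ cls (T j p) = x.2.1 ∧
        Ang θ' (T i p) (T j p)) ∧
      θ' * ((I.filter (fun i => p ∈ S i)).card : ℝ) ≤
        (N : ℝ) ^ 2 * ((I.filter (fun i => p ∈ S i ∧ cls (T i p) = x.1)).card : ℝ) ∧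
      θ' * ((I.filter (fun i => p ∈ S i)).card : ℝ) ≤
        (N : ℝ) ^ 2 * ((I.filter (fun i => p ∈ S i ∧ cls (T i p) = x.2.1)).card : ℝ)))
  set X : Finset (ℕ × ℕ × ℕ) := range N ×ˢ (range N ×ˢ range N') with hX
  have hsum : ∑ p ∈ P, (I.filter (fun i => p ∈ S i)).card ≤
      ∑ x ∈ X, ∑ p ∈ Qf x, (I.filter (fun i => p ∈ S i)).card := by
    calc ∑ p ∈ P, (I.filter (fun i => p ∈ S i)).card
        ≤ ∑ p ∈ P, ∑ x ∈ X, (if p ∈ Qf x then (I.filter (fun i => p ∈ S i)).card else 0) := by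
          refine sum_le_sum fun p hp => ?_
          rcases (I.filter (fun i => p ∈ S i)).eq_empty_or_nonempty with h0 | hne
          · rw [h0, card_empty]
            exact Nat.zero_le _
          · obtain ⟨a, ha, b, hb', h3⟩ := broad_pigeon θ' hθ0 I S T p (rm_broad hθθ (hb p hp)) N cls
              hcls hne
            have hx : (a, b, pl p) ∈ X := by
              rw [hX, mem_product, mem_product]
              exact ⟨mem_range.2 ha, mem_range.2 hb', mem_range.2 (hpl1 p)⟩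
            have hpQ : p ∈ Qf (a, b, pl p) := mem_filter.2 ⟨hp, rfl, h3⟩
            have h4 := single_le_sum (f := fun x : ℕ × ℕ × ℕ =>
              (if p ∈ Qf x then (I.filter (fun i => p ∈ S i)).card else 0))
              (fun _ _ => Nat.zero_le _) hx
            simp only [hpQ, if_true] at h4
            exact h4
      _ = ∑ x ∈ X, ∑ p ∈ P, (if p ∈ Qf x then (I.filter (fun i => p ∈ S i)).card else 0) :=
          sum_comm
      _ = ∑ x ∈ X, ∑ p ∈ Qf x, (I.filter (fun i => p ∈ S i)).card := by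
          refine sum_congr rfl fun x _ => ?_
          rw [← sum_filter]
          refine sum_congr ?_ fun _ _ => rfl
          ext p
          rw [mem_filter]
          exact ⟨fun h => h.2, fun h => ⟨(mem_filter.1 h).1, h⟩⟩
  have hcl : ∀ x ∈ X, ((∑ p ∈ Qf x, (I.filter (fun i => p ∈ S i)).card : ℕ) : ℝ) ≤
      (N : ℝ) ^ 2 / θ' * (A0 * ((P.card : ℝ) ^ ((k : ℝ) / (2 * k - 1)) *
          (I.card : ℝ) ^ ((2 * k - 2 : ℝ) / (2 * k - 1)) + P.card + I.card)) := by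
    intro x _
    refine rm_class l k C θ' η A0 hθ0 hθ1 hη hk hA0 h2 N cls hpc I P (Qf x)
      (filter_subset _ _) S T r hfr hfl hcd ?_ x.1 x.2.1 ?_
    · intro p hp q hq
      have h3 := (mem_filter.1 hp)
      have h4 := (mem_filter.1 hq)
      have h5 := hpl2 p q (hP p h3.1) (hP q h4.1) (h3.2.1.trans h4.2.1.symm)
      rwa [one_mul] at h5
    · intro p hp
      exact (mem_filter.1 hp).2.2
  have hXc : X.card = N * (N * N') := by
    rw [hX, card_product, card_product, card_range, card_range]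
  calc ((∑ p ∈ P, (I.filter (fun i => p ∈ S i)).card : ℕ) : ℝ)
      ≤ ((∑ x ∈ X, ∑ p ∈ Qf x, (I.filter (fun i => p ∈ S i)).card : ℕ) : ℝ) := by
        exact_mod_cast hsum
    _ = ∑ x ∈ X, ((∑ p ∈ Qf x, (I.filter (fun i => p ∈ S i)).card : ℕ) : ℝ) := Nat.cast_sum _ _
    _ ≤ ∑ _x ∈ X, (N : ℝ) ^ 2 / θ' * (A0 * ((P.card : ℝ) ^ ((k : ℝ) / (2 * k - 1)) *
          (I.card : ℝ) ^ ((2 * k - 2 : ℝ) / (2 * k - 1)) + P.card + I.card)) := sum_le_sum hcl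
    _ = _ := by
        rw [sum_const, nsmul_eq_mul, hXc]
        push_cast
        ring

end CFS
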