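import Pool.Agent.CFS.R.RMain
import Pool.Agent.CFS.R.RHold
import Pool.Agent.CFS.R.RGrid

/-!
# Module CFSR-Main2: broad points, surfaces of diameter at most `Λ r`, points anywhere

Plan.  `η` from `broad_main l θ`; let `A1` be its constant for `k, C, Λ = 1` (`max A1 0`), `N` from
`grid_cells l Λ`.  Given the data, `cell` for `r`; for each cell `c ∈ P.image cell` let
`P c = {p ∈ P : cell p = c}`, `I c = {i ∈ I : ∃ p ∈ P c, p ∈ S i}`.  Choose `p0 ∈ P c` and translate: apply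
`broad_main` (with `Λ = 1`) to `(P c).image (· - p0)`, `S' i = {x | x + p0 ∈ S i}`, `T' i x = T i (x + p0)`, the index set
`I c`: `‖p - p0‖ ≤ r` for `p ∈ P c`; all hypotheses transfer; `Broad` for `I c`: the surfaces of `I` through
`p ∈ P c` are in `I c`, so the counts are the same.  It gives
`Σ_{p ∈ P c} #{i ∈ I : p ∈ S i} ≤ A1 (m_c^α n_c^β + m_c + n_c)`, `m_c = |P c|`, `n_c = |I c| ≤ |I|`.
`Σ_c m_c = |P|`; `Σ_c n_c = Σ_{i ∈ I} #{c : S i meets P c} ≤ N |I|` (`grid_cells` for `Q = {p ∈ P : p ∈ S i}`).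
`sum_holder` and summation: `A = A1 (N + 1 + N)`-like constant, e.g. `3 * N * A1`.
-/

noncomputable section

namespace CFS

open Finset Classical

/-- the translated statement -/
private theorem tr_main {l : ℕ} {θ η : ℝ} {k C : ℕ} {A : ℝ}
    (h : ∀ {ι : Type} (I : Finset ι) (P : Finset (V l))
      (S : ι → Set (V l)) (T : ι → V l → Submodule ℝ (V l)) (r : ℝ), 0 < r →
      (∀ p ∈ P, ‖p‖ ≤ 1 * r) →
      (∀ i ∈ I, ∀ p ∈ P, p ∈ S i → Module.finrank ℝ (T i p) = l) →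
      (∀ i ∈ I, ∀ p ∈ P, ∀ q ∈ P, p ∈ S i → q ∈ S i → ‖q - p‖ ≤ r →
        ∃ t ∈ T i p, ‖q - p - t‖ ≤ η * ‖q - p‖) →
      (∀ Y : Finset (V l), Y ⊆ P → Y.card = k → (I.filter (fun i => ∀ p ∈ Y, p ∈ S i)).card ≤ C) →
      (∀ p ∈ P, Broad θ I S T p) →
      ((∑ p ∈ P, (I.filter (fun i => p ∈ S i)).card : ℕ) : ℝ) ≤
        A * ((P.card : ℝ) ^ ((k : ℝ) / (2 * k - 1)) *
          (I.card : ℝ) ^ ((2 * k - 2 : ℝ) / (2 * k - 1)) + P.card + I.card))
    {ι : Type} (I : Finset ι) (P : Finset (V l)) (S : ι → Set (V l))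
    (T : ι → V l → Submodule ℝ (V l)) (r : ℝ) (p0 : V l) (hr : 0 < r)
    (h0 : ∀ p ∈ P, ‖p - p0‖ ≤ r)
    (h1 : ∀ i ∈ I, ∀ p ∈ P, p ∈ S i → Module.finrank ℝ (T i p) = l)
    (h2 : ∀ i ∈ I, ∀ p ∈ P, ∀ q ∈ P, p ∈ S i → q ∈ S i → ‖q - p‖ ≤ r →
        ∃ t ∈ T i p, ‖q - p - t‖ ≤ η * ‖q - p‖)
    (h3 : ∀ Y : Finset (V l), Y ⊆ P → Y.card = k →
      (I.filter (fun i => ∀ p ∈ Y, p ∈ S i)).card ≤ C)
    (h4 : ∀ p ∈ P, Broad θ I S T p) :
    ((∑ p ∈ P, (I.filter (fun i => p ∈ S i)).card : ℕ) : ℝ) ≤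
        A * ((P.card : ℝ) ^ ((k : ℝ) / (2 * k - 1)) *
          (I.card : ℝ) ^ ((2 * k - 2 : ℝ) / (2 * k - 1)) + P.card + I.card) := by
  have hinj : Function.Injective (fun p : V l => p - p0) := fun p q hpq => sub_left_injective hpq
  have key := h I (P.image (fun p => p - p0)) (fun i => {x | x + p0 ∈ S i})
    (fun i x => T i (x + p0)) r hr ?_ ?_ ?_ ?_ ?_
  · rw [Finset.sum_image (fun p _ q _ hpq => hinj hpq), card_image_of_injective _ hinj] at key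
    have e : ∀ p : V l, (I.filter (fun i => p - p0 ∈ {x | x + p0 ∈ S i})).card =
        (I.filter (fun i => p ∈ S i)).card := by
      intro p
      refine congrArg card (filter_congr fun i _ => ?_)
      show p - p0 + p0 ∈ S i ↔ p ∈ S i
      rw [sub_add_cancel]
    rw [Finset.sum_congr rfl fun p _ => e p] at key
    exact key
  · intro x hx
    obtain ⟨p, hp, rfl⟩ := mem_image.1 hx
    rw [one_mul]
    exact h0 p hp
  · intro i hi x hx hxS
    obtain ⟨p, hp, rfl⟩ := mem_image.1 hx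
    have hxS' : p - p0 + p0 ∈ S i := hxS
    show Module.finrank ℝ (T i (p - p0 + p0)) = l
    rw [sub_add_cancel] at hxS' ⊢
    exact h1 i hi p hp hxS'
  · intro i hi x hx y hy hxS hyS hxy
    obtain ⟨p, hp, rfl⟩ := mem_image.1 hx
    obtain ⟨q, hq, rfl⟩ := mem_image.1 hy
    have hxS' : p - p0 + p0 ∈ S i := hxS
    have hyS' : q - p0 + p0 ∈ S i := hyS
    have e : (fun p => p - p0) q - (fun p => p - p0) p = q - p := sub_sub_sub_cancel_right q p p0
    rw [e] at hxy ⊢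
    show ∃ t ∈ T i (p - p0 + p0), ‖q - p - t‖ ≤ η * ‖q - p‖
    rw [sub_add_cancel] at hxS' hyS' ⊢
    exact h2 i hi p hp q hq hxS' hyS' hxy
  · intro Y hY hYk
    have hinj2 : Function.Injective (fun x : V l => x + p0) := fun x y hxy => add_left_injective p0 hxy
    have h5 := h3 (Y.image (fun x => x + p0)) ?_ ?_
    · refine le_trans (card_le_card ?_) h5
      intro i hi
      rw [mem_filter] at hi ⊢
      refine ⟨hi.1, fun p hp => ?_⟩
      obtain ⟨x, hx, rfl⟩ := mem_image.1 hp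
      exact hi.2 x hx
    · intro p hp
      obtain ⟨x, hx, rfl⟩ := mem_image.1 hp
      obtain ⟨q, hq, rfl⟩ := mem_image.1 (hY hx)
      show q - p0 + p0 ∈ P
      rw [sub_add_cancel]
      exact hq
    · rw [card_image_of_injective _ hinj2, hYk]
  · intro x hx
    obtain ⟨p, hp, rfl⟩ := mem_image.1 hx
    have h5 := h4 p hp
    unfold Broad at h5 ⊢
    have e : p - p0 + p0 = p := sub_add_cancel p p0
    show θ * ((I.filter (fun i => p - p0 + p0 ∈ S i)).card : ℝ) ^ 2 ≤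
      (((I ×ˢ I).filter (fun x => p - p0 + p0 ∈ S x.1 ∧ p - p0 + p0 ∈ S x.2 ∧
        Ang θ (T x.1 (p - p0 + p0)) (T x.2 (p - p0 + p0)))).card : ℝ)
    rw [e]
    exact h5

theorem broad_main2 (l : ℕ) (θ : ℝ) (hθ : 0 < θ) : ∃ η : ℝ, 0 < η ∧
    ∀ (k C : ℕ) (Λ : ℝ), 2 ≤ k → ∃ A : ℝ, ∀ {ι : Type} (I : Finset ι) (P : Finset (V l))
      (S : ι → Set (V l)) (T : ι → V l → Submodule ℝ (V l)) (r : ℝ), 0 < r →
      (∀ i ∈ I, ∀ p ∈ P, ∀ q ∈ P, p ∈ S i → q ∈ S i → ‖q - p‖ ≤ Λ * r) →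
      (∀ i ∈ I, ∀ p ∈ P, p ∈ S i → Module.finrank ℝ (T i p) = l) →
      (∀ i ∈ I, ∀ p ∈ P, ∀ q ∈ P, p ∈ S i → q ∈ S i → ‖q - p‖ ≤ r →
        ∃ t ∈ T i p, ‖q - p - t‖ ≤ η * ‖q - p‖) →
      (∀ Y : Finset (V l), Y ⊆ P → Y.card = k → (I.filter (fun i => ∀ p ∈ Y, p ∈ S i)).card ≤ C) →
      (∀ p ∈ P, Broad θ I S T p) →
      ((∑ p ∈ P, (I.filter (fun i => p ∈ S i)).card : ℕ) : ℝ) ≤
        A * ((P.card : ℝ) ^ ((k : ℝ) / (2 * k - 1)) *
          (I.card : ℝ) ^ ((2 * k - 2 : ℝ) / (2 * k - 1)) + P.card + I.card) := by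
  obtain ⟨η, hη, hmain⟩ := broad_main l θ hθ
  refine ⟨η, hη, fun k C Λ hk => ?_⟩
  obtain ⟨A1, hA1⟩ := hmain k C 1 hk
  obtain ⟨N, hN, hgrid⟩ := grid_cells l Λ
  refine ⟨max A1 0 * N, ?_⟩
  intro ι I P S T r hr hdiam hT hS hY hbroad
  obtain ⟨cell, hc1, hc2⟩ := hgrid r hr
  obtain ⟨Ic, hIc⟩ : ∃ Ic : (Fin (2 * l) → ℤ) → Finset ι, ∀ c i, i ∈ Ic c ↔
      i ∈ I ∧ ∃ p ∈ P, cell p = c ∧ p ∈ S i :=
    ⟨fun c => I.filter (fun i => ∃ p ∈ P, cell p = c ∧ p ∈ S i), fun c i => mem_filter⟩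
  obtain ⟨Pc, hPc⟩ : ∃ Pc : (Fin (2 * l) → ℤ) → Finset (V l), Pc =
      fun c => P.filter (fun p => cell p = c) := ⟨_, rfl⟩
  have hPm : ∀ c p, p ∈ Pc c ↔ p ∈ P ∧ cell p = c := by
    intro c p
    rw [hPc]
    exact mem_filter
  have hIsub : ∀ c, Ic c ⊆ I := fun c i hi => ((hIc c i).1 hi).1
  have hA0 : 0 ≤ max A1 0 := le_max_right _ _
  -- one cell
  have hone : ∀ c ∈ P.image cell, ((∑ p ∈ Pc c, (I.filter (fun i => p ∈ S i)).card : ℕ) : ℝ) ≤
      max A1 0 * (((Pc c).card : ℝ) ^ ((k : ℝ) / (2 * k - 1)) *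
          ((Ic c).card : ℝ) ^ ((2 * k - 2 : ℝ) / (2 * k - 1)) + (Pc c).card + (Ic c).card) := by
    intro c hc
    obtain ⟨p0, hp0, rfl⟩ := mem_image.1 hc
    have hin : ∀ p ∈ Pc (cell p0), ∀ i, (i ∈ Ic (cell p0) ∧ p ∈ S i) ↔ (i ∈ I ∧ p ∈ S i) := by
      intro p hp i
      obtain ⟨hp1, hp2⟩ := (hPm _ _).1 hp
      constructor
      · exact fun h => ⟨hIsub _ h.1, h.2⟩
      · exact fun h => ⟨(hIc _ i).2 ⟨h.1, p, hp1, hp2, h.2⟩, h.2⟩
    have hcard : ∀ p ∈ Pc (cell p0), ((Ic (cell p0)).filter (fun i => p ∈ S i)) =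
        (I.filter (fun i => p ∈ S i)) := by
      intro p hp
      ext i
      rw [mem_filter, mem_filter]
      exact hin p hp i
    have h5 := tr_main (θ := θ) (η := η) (k := k) (C := C) (A := A1) hA1 (Ic (cell p0))
      (Pc (cell p0)) S T r p0 hr ?_ ?_ ?_ ?_ ?_
    · rw [Finset.sum_congr rfl fun p hp => congrArg card (hcard p hp)] at h5
      refine h5.trans (mul_le_mul_of_nonneg_right (le_max_left _ _) (by positivity))
    · intro p hp
      exact hc1 p p0 ((hPm _ _).1 hp).2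
    · intro i hi p hp hpS
      exact hT i (hIsub _ hi) p ((hPm _ _).1 hp).1 hpS
    · intro i hi p hp q hq hpS hqS hpq
      exact hS i (hIsub _ hi) p ((hPm _ _).1 hp).1 q ((hPm _ _).1 hq).1 hpS hqS hpq
    · intro Y hY1 hY2
      refine le_trans (card_le_card ?_) (hY Y (fun p hp => ((hPm _ _).1 (hY1 hp)).1) hY2)
      intro i hi
      rw [mem_filter] at hi ⊢
      exact ⟨hIsub _ hi.1, hi.2⟩
    · intro p hp
      have h6 := hbroad p ((hPm _ _).1 hp).1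
      unfold Broad at h6 ⊢
      rw [hcard p hp]
      refine h6.trans ?_
      refine Nat.cast_le.2 (card_le_card ?_)
      intro x hx
      rw [mem_filter, mem_product] at hx ⊢
      obtain ⟨⟨hx1, hx2⟩, hx3, hx4, hx5⟩ := hx
      exact ⟨⟨((hin p hp x.1).2 ⟨hx1, hx3⟩).1, ((hin p hp x.2).2 ⟨hx2, hx4⟩).1⟩, hx3, hx4, hx5⟩
  -- the sums
  have hsumP : ∀ f : V l → ℕ, ∑ c ∈ P.image cell, ∑ p ∈ Pc c, f p = ∑ p ∈ P, f p := by
    intro f
    rw [hPc]
    exact Finset.sum_fiberwise_of_maps_to (fun p hp => mem_image_of_mem cell hp) f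
  have hms : ∑ c ∈ P.image cell, ((Pc c).card : ℝ) ≤ P.card := by
    have h5 := hsumP (fun _ => 1)
    rw [← Finset.card_eq_sum_ones] at h5
    have h6 : ∑ c ∈ P.image cell, (Pc c).card = P.card := by
      rw [← h5]
      exact Finset.sum_congr rfl fun c _ => card_eq_sum_ones _
    rw [← h6]
    push_cast
    exact le_rfl
  have hns : ∑ c ∈ P.image cell, ((Ic c).card : ℝ) ≤ (N : ℝ) * I.card := by
    have h5 := Finset.sum_card_bipartiteAbove_eq_sum_card_bipartiteBelow (s := I)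
      (t := P.image cell) (fun i c => i ∈ Ic c)
    have h6 : ∑ c ∈ P.image cell, (Ic c).card =
        ∑ c ∈ P.image cell, (I.bipartiteBelow (fun i c => i ∈ Ic c) c).card := by
      refine Finset.sum_congr rfl fun c _ => congrArg card ?_
      ext i
      rw [mem_bipartiteBelow]
      exact ⟨fun h => ⟨hIsub c h, h⟩, fun h => h.2⟩
    have h7 : ∀ i ∈ I, ((P.image cell).bipartiteAbove (fun i c => i ∈ Ic c) i).card ≤ N := by
      intro i hi
      refine le_trans (card_le_card ?_) (hc2 (P.filter (fun p => p ∈ S i)) ?_)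
      · intro c hc
        rw [mem_bipartiteAbove] at hc
        obtain ⟨p, hp, hpc, hpS⟩ := ((hIc c i).1 hc.2).2
        rw [← hpc]
        exact mem_image_of_mem _ (mem_filter.2 ⟨hp, hpS⟩)
      · intro p hp q hq
        rw [mem_filter] at hp hq
        exact hdiam i hi q hq.1 p hp.1 hq.2 hp.2
    have h8 : ∑ c ∈ P.image cell, (Ic c).card ≤ N * I.card := by
      rw [h6, ← h5]
      refine (Finset.sum_le_card_nsmul _ _ _ h7).trans (le_of_eq ?_)
      rw [smul_eq_mul, mul_comm]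
    exact_mod_cast h8
  have hhol := sum_holder (P.image cell) (fun c => ((Pc c).card : ℝ)) (fun c => ((Ic c).card : ℝ))
    k hk P.card I.card N (fun c _ => by positivity) (fun c _ => by positivity)
    (fun c _ => by exact_mod_cast card_le_card (hIsub c)) (by positivity) (by exact_mod_cast hN)
    hms hns
  have hN1 : (1 : ℝ) ≤ N := by exact_mod_cast hN
  have hP0 : (0 : ℝ) ≤ P.card := by positivity
  calc ((∑ p ∈ P, (I.filter (fun i => p ∈ S i)).card : ℕ) : ℝ)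
      = ∑ c ∈ P.image cell, ((∑ p ∈ Pc c, (I.filter (fun i => p ∈ S i)).card : ℕ) : ℝ) := by
        rw [← hsumP (fun p => (I.filter (fun i => p ∈ S i)).card), Nat.cast_sum]
    _ ≤ ∑ c ∈ P.image cell, max A1 0 * (((Pc c).card : ℝ) ^ ((k : ℝ) / (2 * k - 1)) *
          ((Ic c).card : ℝ) ^ ((2 * k - 2 : ℝ) / (2 * k - 1)) + (Pc c).card + (Ic c).card) :=
        Finset.sum_le_sum hone
    _ = max A1 0 * (∑ c ∈ P.image cell, ((Pc c).card : ℝ) ^ ((k : ℝ) / (2 * k - 1)) *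
          ((Ic c).card : ℝ) ^ ((2 * k - 2 : ℝ) / (2 * k - 1)) + ∑ c ∈ P.image cell, ((Pc c).card : ℝ) +
            ∑ c ∈ P.image cell, ((Ic c).card : ℝ)) := by
        rw [← Finset.mul_sum, Finset.sum_add_distrib, Finset.sum_add_distrib]
    _ ≤ max A1 0 * ((N : ℝ) * ((P.card : ℝ) ^ ((k : ℝ) / (2 * k - 1)) *
          (I.card : ℝ) ^ ((2 * k - 2 : ℝ) / (2 * k - 1))) + N * P.card + N * I.card) := by
        refine mul_le_mul_of_nonneg_left ?_ hA0
        have h9 : (P.card : ℝ) ≤ N * P.card := by nlinarith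
        linarith
    _ = max A1 0 * N * ((P.card : ℝ) ^ ((k : ℝ) / (2 * k - 1)) *
          (I.card : ℝ) ^ ((2 * k - 2 : ℝ) / (2 * k - 1)) + P.card + I.card) := by ring

end CFS
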