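import Pool.Agent.CFS.R.RDefs

/-!
# Module CFSR-Map: a linear map making two transversal subspaces horizontal and vertical

Plan.  `θ > 0`, `dim U = dim U' = l`, `Ang θ U U'`.
1. `U ∩ U' = 0` (a common nonzero vector, normalised, would give `θ ≤ 0`), so `V l = U ⊕ U'`
   (`Submodule.finrank_sup_add_finrank_inf_eq`, `IsCompl`).
2. For `u ∈ U`, `v ∈ U'`: `max ‖u‖ ‖v‖ ≤ (2/θ) ‖u + v‖`.  Let `a = max`, say `a = ‖u‖ ≥ ‖v‖` (the other case is
   symmetric).  If `v = 0` or `u = 0`: here `θ ≤ 2` is needed: if `u ≠ 0` and there is a unit vector in `U'`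
   then `θ ≤ 2`; simplest: assume `θ ≤ 1` (hypothesis `hθ1`).  Otherwise with `u' = u/‖u‖`, `v' = - v/‖v‖`,
   `‖u' - v'‖ ≥ θ`, `x = u + v = a u' - b v'`, `b = ‖v‖ ≤ a`: `‖x‖ ≥ a - b` and
   `‖x‖ ≥ ‖a u' - a v'‖ - (a - b) ≥ a θ - (a - b)`; the sum gives `2 ‖x‖ ≥ a θ`.
3. `T x = (coordinates of u in an orthonormal basis of U, coordinates of v in an orthonormal basis of U')`
   where `x = u + v` (`stdOrthonormalBasis ℝ U` reindexed by `finrank = l`, projections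
   `Submodule.linearProjOfIsCompl` or `Submodule.prodEquivOfIsCompl`).  `T` is linear and injective.  With sup norms on
   `E l`: `‖(T x).1‖ ≤ ‖u‖ ≤ (l + 1) ‖(T x).1‖` (`‖u‖² = Σ_k c_k² ≤ l ‖c‖²`), the same for `v`.
4. Let `η = θ/(400 (l+1))`, `‖x - t‖ ≤ η ‖x‖` with `t ∈ U`.  `x - t = u1 + v1`; `v = v1`, so
   `‖v‖ ≤ (2/θ) η ‖x‖ = ‖x‖/(200 (l+1))`; `‖u‖ ≥ ‖x‖ - ‖v‖ ≥ ‖x‖/2`; so `‖v‖ ≤ ‖u‖/(100 (l+1))` and
   `‖(T x).2‖ ≤ ‖v‖ ≤ ‖u‖/(100 (l+1)) ≤ ‖(T x).1‖/100`.  Symmetric for `U'`.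
-/

noncomputable section

namespace CFS

open Finset Classical

private theorem coord_map {l : ℕ} (U : Submodule ℝ (V l)) (hU : Module.finrank ℝ U = l) :
    ∃ c : U →ₗ[ℝ] E l, ∀ u : U, ‖c u‖ ≤ ‖(u : V l)‖ ∧ ‖(u : V l)‖ ≤ (l + 1) * ‖c u‖ := by
  let b : OrthonormalBasis (Fin l) ℝ U := (stdOrthonormalBasis ℝ U).reindex (finCongr hU)
  let c : U →ₗ[ℝ] E l :=
    { toFun := fun u i => b.repr u i
      map_add' := fun x y => by
        funext i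
        simp
      map_smul' := fun r x => by
        funext i
        simp }
  refine ⟨c, fun u => ⟨?_, ?_⟩⟩
  · have h1 : ‖(u : V l)‖ = ‖b.repr u‖ := by
      rw [LinearIsometryEquiv.norm_map]
      rfl
    rw [h1]
    refine (pi_norm_le_iff_of_nonneg (norm_nonneg _)).2 fun i => ?_
    exact PiLp.norm_apply_le (b.repr u) i
  · have h1 : ‖(u : V l)‖ ^ 2 = ∑ i, (c u i) ^ 2 := by
      have h2 : ‖(u : V l)‖ = ‖b.repr u‖ := by
        rw [LinearIsometryEquiv.norm_map]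
        rfl
      rw [h2, EuclideanSpace.real_norm_sq_eq]
      rfl
    have h2 : ∑ i, (c u i) ^ 2 ≤ ∑ _i : Fin l, ‖c u‖ ^ 2 := by
      refine Finset.sum_le_sum fun i _ => ?_
      have h3 : |c u i| ≤ ‖c u‖ := norm_le_pi_norm (c u) i
      calc (c u i) ^ 2 = |c u i| ^ 2 := (sq_abs _).symm
        _ ≤ ‖c u‖ ^ 2 := by gcongr
    rw [Finset.sum_const, Finset.card_univ, Fintype.card_fin, nsmul_eq_mul] at h2
    have hl : (0 : ℝ) ≤ l := Nat.cast_nonneg l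
    have h3 : ‖(u : V l)‖ ^ 2 ≤ ((l + 1) * ‖c u‖) ^ 2 := by
      rw [h1]
      refine h2.trans ?_
      have h4 := sq_nonneg ‖c u‖
      nlinarith [mul_nonneg hl h4, mul_nonneg (mul_nonneg hl hl) h4]
    exact le_of_sq_le_sq h3 (by positivity)

private theorem nrm1 {l : ℕ} {u : V l} (hu : u ≠ 0) : ‖‖u‖⁻¹ • u‖ = 1 := by
  rw [norm_smul, norm_inv, norm_norm, inv_mul_cancel₀ (norm_ne_zero_iff.2 hu)]

private theorem ang_ne {l : ℕ} {θ : ℝ} {U U' : Submodule ℝ (V l)} (h : Ang θ U U')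
    (u v : V l) (hu : u ∈ U) (hv : v ∈ U') (hu0 : u ≠ 0) (hv0 : v ≠ 0) :
    θ ≤ ‖‖u‖⁻¹ • u + ‖v‖⁻¹ • v‖ := by
  have h1 := h (‖u‖⁻¹ • u) (U.smul_mem _ hu) (-(‖v‖⁻¹ • v)) (U'.neg_mem (U'.smul_mem _ hv))
    (nrm1 hu0) (by rw [norm_neg]; exact nrm1 hv0)
  rwa [sub_neg_eq_add] at h1

private theorem ang_bd {l : ℕ} {θ : ℝ} (hθ : 0 < θ) (hθ1 : θ ≤ 1) {U U' : Submodule ℝ (V l)}
    (h : Ang θ U U') (u v : V l) (hu : u ∈ U) (hv : v ∈ U') :
    θ * ‖u‖ ≤ 2 * ‖u + v‖ ∧ θ * ‖v‖ ≤ 2 * ‖u + v‖ := by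
  by_cases hu0 : u = 0
  · subst hu0
    rw [zero_add, norm_zero, mul_zero]
    refine ⟨by positivity, ?_⟩
    have := norm_nonneg v
    nlinarith
  by_cases hv0 : v = 0
  · subst hv0
    rw [add_zero, norm_zero, mul_zero]
    refine ⟨?_, by positivity⟩
    have := norm_nonneg u
    nlinarith
  have ha : 0 < ‖u‖ := norm_pos_iff.2 hu0
  have hb : 0 < ‖v‖ := norm_pos_iff.2 hv0
  have h1 := ang_ne h u v hu hv hu0 hv0
  rcases le_total ‖v‖ ‖u‖ with hle | hle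
  · have h2 : ‖u‖ * θ ≤ ‖u + v‖ + (‖u‖ - ‖v‖) := by
      calc ‖u‖ * θ ≤ ‖u‖ * ‖‖u‖⁻¹ • u + ‖v‖⁻¹ • v‖ := mul_le_mul_of_nonneg_left h1 ha.le
        _ = ‖‖u‖ • (‖u‖⁻¹ • u + ‖v‖⁻¹ • v)‖ := by
            rw [norm_smul, norm_norm]
        _ = ‖(u + v) + ((‖u‖ - ‖v‖) * ‖v‖⁻¹) • v‖ := by
            congr 1
            rw [smul_add, smul_smul, smul_smul, mul_inv_cancel₀ ha.ne', one_smul, sub_mul,
              mul_inv_cancel₀ hb.ne', sub_smul, one_smul]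
            abel
        _ ≤ ‖u + v‖ + ‖((‖u‖ - ‖v‖) * ‖v‖⁻¹) • v‖ := norm_add_le _ _
        _ = ‖u + v‖ + (‖u‖ - ‖v‖) := by
            rw [norm_smul, Real.norm_of_nonneg (mul_nonneg (by linarith) (by positivity)),
              mul_assoc, inv_mul_cancel₀ hb.ne', mul_one]
    have h3 : ‖u‖ - ‖v‖ ≤ ‖u + v‖ := by
      have := norm_sub_norm_le u (-v)
      rw [norm_neg, sub_neg_eq_add] at this
      exact this
    constructor
    · linarith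
    · have : θ * ‖v‖ ≤ θ * ‖u‖ := mul_le_mul_of_nonneg_left hle hθ.le
      linarith
  · have h2 : ‖v‖ * θ ≤ ‖u + v‖ + (‖v‖ - ‖u‖) := by
      calc ‖v‖ * θ ≤ ‖v‖ * ‖‖u‖⁻¹ • u + ‖v‖⁻¹ • v‖ := mul_le_mul_of_nonneg_left h1 hb.le
        _ = ‖‖v‖ • (‖u‖⁻¹ • u + ‖v‖⁻¹ • v)‖ := by
            rw [norm_smul, norm_norm]
        _ = ‖(u + v) + ((‖v‖ - ‖u‖) * ‖u‖⁻¹) • u‖ := by
            congr 1
            rw [smul_add, smul_smul, smul_smul, mul_inv_cancel₀ hb.ne', one_smul, sub_mul,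
              mul_inv_cancel₀ ha.ne', sub_smul, one_smul]
            abel
        _ ≤ ‖u + v‖ + ‖((‖v‖ - ‖u‖) * ‖u‖⁻¹) • u‖ := norm_add_le _ _
        _ = ‖u + v‖ + (‖v‖ - ‖u‖) := by
            rw [norm_smul, Real.norm_of_nonneg (mul_nonneg (by linarith) (by positivity)),
              mul_assoc, inv_mul_cancel₀ ha.ne', mul_one]
    have h3 : ‖v‖ - ‖u‖ ≤ ‖u + v‖ := by
      have := norm_sub_norm_le v (-u)
      rw [norm_neg, sub_neg_eq_add, add_comm] at this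
      exact this
    constructor
    · have : θ * ‖u‖ ≤ θ * ‖v‖ := mul_le_mul_of_nonneg_left hle hθ.le
      linarith
    · linarith

private theorem num_bd {l : ℕ} {θ x u v d c1 c2 : ℝ} (hθ : 0 < θ) (hx : x ≤ u + v)
    (hd : d ≤ θ / (400 * (l + 1)) * x) (hv : θ * v ≤ 2 * d) (hv0 : 0 ≤ v) (hx0 : 0 ≤ x)
    (h1 : u ≤ (l + 1) * c1) (h2 : c2 ≤ v) : c2 ≤ c1 / 100 := by
  have hl : (0 : ℝ) ≤ l := Nat.cast_nonneg l
  have e1 : θ * v ≤ θ * (x / (200 * (l + 1))) := by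
    refine hv.trans ((mul_le_mul_of_nonneg_left hd (by norm_num)).trans (le_of_eq ?_))
    field_simp
    ring
  have e2 : v ≤ x / (200 * (l + 1)) := le_of_mul_le_mul_left e1 hθ
  have e3 : x / (200 * (l + 1)) ≤ x / 200 := by
    apply div_le_div_of_nonneg_left hx0 (by norm_num)
    linarith
  have e4 : x ≤ 2 * u := by linarith
  have e5 : v ≤ u / (100 * (l + 1)) := by
    refine e2.trans ?_
    rw [div_le_div_iff₀ (by positivity) (by positivity)]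
    nlinarith
  have e6 : u / (100 * (l + 1)) ≤ c1 / 100 := by
    rw [div_le_div_iff₀ (by positivity) (by positivity)]
    nlinarith
  linarith

theorem pair_map (l : ℕ) (θ : ℝ) (hθ : 0 < θ) (hθ1 : θ ≤ 1) (U U' : Submodule ℝ (V l))
    (hU : Module.finrank ℝ U = l) (hU' : Module.finrank ℝ U' = l) (h : Ang θ U U') :
    ∃ T : V l →ₗ[ℝ] W l, Function.Injective T ∧
      (∀ x : V l, (∃ t ∈ U, ‖x - t‖ ≤ θ / (400 * (l + 1)) * ‖x‖) → ‖(T x).2‖ ≤ ‖(T x).1‖ / 100) ∧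
      (∀ x : V l, (∃ t ∈ U', ‖x - t‖ ≤ θ / (400 * (l + 1)) * ‖x‖) → ‖(T x).1‖ ≤ ‖(T x).2‖ / 100) := by
  have hinf : U ⊓ U' = ⊥ := by
    rw [Submodule.eq_bot_iff]
    intro x hx
    by_contra hx0
    have h1 := h (‖x‖⁻¹ • x) (U.smul_mem _ hx.1) (‖x‖⁻¹ • x) (U'.smul_mem _ hx.2)
      (nrm1 hx0) (nrm1 hx0)
    rw [sub_self, norm_zero] at h1
    linarith
  have hsup : U ⊔ U' = ⊤ := by
    apply Submodule.eq_top_of_finrank_eq
    have h1 := Submodule.finrank_sup_add_finrank_inf_eq U U'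
    rw [hinf, finrank_bot, hU, hU'] at h1
    rw [finrank_euclideanSpace, Fintype.card_fin]
    omega
  have hc : IsCompl U U' := ⟨disjoint_iff.2 hinf, codisjoint_iff.2 hsup⟩
  let e := (Submodule.prodEquivOfIsCompl U U' hc).symm
  have he : ∀ x : V l, x = ((e x).1 : V l) + ((e x).2 : V l) := by
    intro x
    have h1 := (Submodule.prodEquivOfIsCompl U U' hc).apply_symm_apply x
    rw [Submodule.coe_prodEquivOfIsCompl'] at h1
    exact h1.symm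
  obtain ⟨c, hcb⟩ := coord_map U hU
  obtain ⟨c', hcb'⟩ := coord_map U' hU'
  let T : V l →ₗ[ℝ] W l :=
    ((c.comp (LinearMap.fst ℝ U U')).comp e.toLinearMap).prod
      ((c'.comp (LinearMap.snd ℝ U U')).comp e.toLinearMap)
  have hT1 : ∀ x, (T x).1 = c (e x).1 := fun x => rfl
  have hT2 : ∀ x, (T x).2 = c' (e x).2 := fun x => rfl
  refine ⟨T, ?_, ?_, ?_⟩
  · rw [← LinearMap.ker_eq_bot, LinearMap.ker_eq_bot']
    intro x hx
    have h1 : c (e x).1 = 0 := by rw [← hT1, hx]; rfl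
    have h2 : c' (e x).2 = 0 := by rw [← hT2, hx]; rfl
    have h3 := (hcb (e x).1).2
    have h4 := (hcb' (e x).2).2
    rw [h1, norm_zero, mul_zero] at h3
    rw [h2, norm_zero, mul_zero] at h4
    rw [he x, norm_le_zero_iff.1 h3, norm_le_zero_iff.1 h4, add_zero]
  · rintro x ⟨t, ht, hxt⟩
    rw [hT1, hT2]
    have h1 := ang_bd hθ hθ1 h (((e x).1 : V l) - t) ((e x).2 : V l)
      (U.sub_mem (e x).1.2 ht) (e x).2.2
    have h2 : ((e x).1 : V l) - t + ((e x).2 : V l) = x - t := by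
      nth_rewrite 3 [he x]
      abel
    rw [h2] at h1
    refine num_bd (l := l) (x := ‖x‖) (u := ‖((e x).1 : V l)‖) (v := ‖((e x).2 : V l)‖)
      (d := ‖x - t‖) hθ ?_ hxt h1.2 (norm_nonneg _) (norm_nonneg _) (hcb (e x).1).2
      (hcb' (e x).2).1
    nth_rewrite 1 [he x]
    exact norm_add_le _ _
  · rintro x ⟨t, ht, hxt⟩
    rw [hT1, hT2]
    have h1 := ang_bd hθ hθ1 h ((e x).1 : V l) (((e x).2 : V l) - t)
      (e x).1.2 (U'.sub_mem (e x).2.2 ht)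
    have h2 : ((e x).1 : V l) + (((e x).2 : V l) - t) = x - t := by
      nth_rewrite 3 [he x]
      abel
    rw [h2] at h1
    refine num_bd (l := l) (x := ‖x‖) (u := ‖((e x).2 : V l)‖) (v := ‖((e x).1 : V l)‖)
      (d := ‖x - t‖) hθ ?_ hxt h1.1 (norm_nonneg _) (norm_nonneg _) (hcb' (e x).2).2
      (hcb (e x).1).1
    nth_rewrite 1 [he x]
    rw [add_comm]
    exact norm_add_le _ _

end CFS
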